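import Pool.Agent.Helper85_OPEN.Final

/-!
Squad OPEN, module RLONG.
-/

namespace Pool.Agent.H5O.H85

open MeasureTheory Complex Filter Topology Pool.Agent.H16Iso Pool.Agent.H1Gen
open Pool.Agent.H62T (ip Poly Vol dt)
open Pool.Agent.H62T.H85 (Ev nrm off CC Cfg Cap ipL ip_add ip_sub ip_rsmul)

theorem Hv_prev {n : ℕ} {v : Fin (n + 3) → ℂ} (hv : CCW v) (j : Fin (n + 3)) :
    Hv v (j - 1) = -det (ev v (j - 1)) (v j) := by
  have h5 := det_edge hv (j - 1)
  rw [sub_add_cancel, det_sub_right] at h5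
  unfold Hv uv
  rw [ip_nI]
  linarith

theorem rlong1 (n : ℕ) (v : Fin (n + 3) → ℂ) (hv : CCW v) (r : ℝ) (hr : 0 < r)
    (hb : ∃ c, Metric.ball c r ⊆ poly v) (j : Fin (n + 3))
    (hj : det (ev v (j - 1)) (ev v (j + 1)) ≤ 0) : 2 * r ≤ sl v j := by
  obtain ⟨c, hc⟩ := hb
  rw [poly_eq' hv] at hc
  have s1 := sn_pos hv j
  have s2 := det_succ_pos hv j
  have key : ∀ ρ, 0 < ρ → ρ < r → 2 * ρ < sl v j := by
    intro ρ h0 h1
    have hm : ∀ s : ℝ, |s| < r → c + s • ev v j ∈ Poly (uv v) (Hv v) := by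
      intro s hs
      apply hc
      rw [Metric.mem_ball, dist_eq_norm, add_sub_cancel_left, norm_smul, norm_ev hv, mul_one,
        Real.norm_eq_abs]
      exact hs
    have hA := hm (-ρ) (by rw [abs_neg, abs_of_pos h0]; exact h1) (j - 1)
    have hB := hm ρ (by rw [abs_of_pos h0]; exact h1) (j + 1)
    have hC := hm 0 (by rw [abs_zero]; exact hr) j
    have a1 := Hv_prev hv j
    have a2 : Hv v j = -det (ev v j) (v j) := by unfold Hv uv; rw [ip_nI]
    have a3 : Hv v (j + 1) = -det (ev v (j + 1)) (v j) - sl v j * det (ev v (j + 1)) (ev v j) := by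
      have h5 := edge_eq hv j
      have h6 : v (j + 1) = v j + sl v j • ev v j := by rw [← h5]; ring
      unfold Hv uv
      rw [ip_nI, h6, det_add_right, det_smul_right]
      ring
    unfold uv at hA hB hC
    rw [ip_nI, det_add_right, det_smul_right] at hA hB hC
    rw [a1] at hA
    rw [a2] at hC
    rw [a3, det_swap (ev v (j + 1)) (ev v j)] at hB
    have hdep := dep3 (ev v (j - 1)) (ev v j) (ev v (j + 1)) (c - v j)
    simp only [det_sub_right] at hdep
    have hA' : 0 < det (ev v (j - 1)) c - det (ev v (j - 1)) (v j)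
      - ρ * det (ev v (j - 1)) (ev v j) := by linarith
    have hB' : 0 < det (ev v (j + 1)) c - det (ev v (j + 1)) (v j)
      - (ρ - sl v j) * det (ev v j) (ev v (j + 1)) := by linarith
    have hC' : 0 < det (ev v j) c - det (ev v j) (v j) := by linarith
    have g1 := mul_pos s2 hA'
    have g2 := mul_pos s1 hB'
    have g3 := mul_nonneg (neg_nonneg.2 hj) hC'.le
    have g4 : 0 < (sl v j - 2 * ρ) * (det (ev v (j - 1)) (ev v j) * det (ev v j) (ev v (j + 1))) := by
      linarith
    have g5 := (mul_pos_iff_of_pos_right (mul_pos s1 s2)).1 g4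
    linarith
  by_contra hcon
  push Not at hcon
  have hs0 := sl_pos hv j
  have := key (sl v j / 2) (by linarith) (by linarith)
  linarith

theorem rlong : RlongStatement := by
  refine ⟨rlong1, fun r R hr hR => ⟨r / R, by positivity, ?_⟩⟩
  intro n v hv hb hdiam j hj
  obtain ⟨c, hc⟩ := hb
  have hcm : c ∈ poly v := hc (Metric.mem_ball_self hr)
  rw [poly_eq' hv] at hc
  have hmar := ball_margin (norm_uv hv) hr hc
  have m1 := hmar (j - 1)
  have m2 := hmar j
  rw [Hv_prev hv j] at m1
  have a2 : Hv v j = -det (ev v j) (v j) := by unfold Hv uv; rw [ip_nI]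
  rw [a2] at m2
  unfold uv at m1 m2
  rw [ip_nI] at m1 m2
  have hx : ‖c - v j‖ ≤ R := by
    have h1 : convexHull ℝ (Set.range v) ⊆ Metric.closedBall (v j) R := by
      apply convexHull_min
      · rintro _ ⟨i, rfl⟩
        rw [Metric.mem_closedBall, dist_eq_norm]
        exact hdiam i j
      · exact convex_closedBall _ _
    have h2 := h1 (interior_subset hcm)
    rwa [Metric.mem_closedBall, dist_eq_norm] at h2
  have hsq : (ev v j).re ^ 2 + (ev v j).im ^ 2 = 1 := by
    have : ‖ev v j‖ ^ 2 = 1 := by rw [norm_ev hv]; norm_num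
    rw [Complex.sq_norm, normSq_apply] at this
    linarith
  have hid : det (ev v (j - 1)) (c - v j)
      = ip (ev v j) (c - v j) * det (ev v (j - 1)) (ev v j)
        + det (ev v j) (c - v j) * ip (ev v (j - 1)) (ev v j) := by
    simp only [det, ip]
    linear_combination (-((ev v (j - 1)).re * (c - v j).im
      - (ev v (j - 1)).im * (c - v j).re)) * hsq
  have hcs : ip (ev v (j - 1)) (ev v j) < 0 := hj
  have hle : ip (ev v j) (c - v j) ≤ R := by
    have h1 := H62T.H60.abs_ip_le (ev v j) (c - v j)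
    rw [norm_ev hv, one_mul] at h1
    exact (le_abs_self _).trans (h1.trans hx)
  have s1 := sn_pos hv j
  have hsn : sn v j = det (ev v (j - 1)) (ev v j) := rfl
  rw [hsn, div_le_iff₀ hR]
  rw [det_sub_right, det_sub_right] at hid
  have g1 : det (ev v j) c - det (ev v j) (v j) ≥ r := by linarith
  have g2 : (det (ev v j) c - det (ev v j) (v j)) * ip (ev v (j - 1)) (ev v j) ≤ 0 :=
    mul_nonpos_of_nonneg_of_nonpos (by linarith) hcs.le
  have g3 := mul_le_mul_of_nonneg_right hle s1.le
  linarith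

end Pool.Agent.H5O.H85
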