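import Pool.Agent.Helper85_OPEN.Ind

/-!
Squad OPEN, modules RVW, RLB.
-/

namespace Pool.Agent.H5O.H85

open MeasureTheory Complex Filter Topology Pool.Agent.H16Iso Pool.Agent.H1Gen
open Pool.Agent.H62T (ip Poly Vol dt)
open Pool.Agent.H62T.H85 (Ev nrm off CC Cfg Cap ipL ip_add ip_sub ip_rsmul)
open scoped Fin.CommRing Fin.NatCast

/-- the rotation that makes the side number `k` the last one -/
theorem last_add {N : ℕ} (k : Fin (N + 1)) : Fin.last N + (k + 1) = k := by
  have h : Fin.last N + 1 = 0 := Fin.last_add_one N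
  calc Fin.last N + (k + 1) = (Fin.last N + 1) + k := by abel
    _ = k := by rw [h, zero_add]

theorem exists_good4 {e : Fin 4 → ℂ} (h : SP e) (hno : ∀ k, ¬ 0 < det (e (k - 1)) (e (k + 1))) :
    e 2 = -e 0 ∧ e 3 = -e 1 := by
  have h0 := hno 0
  have h1 := hno 1
  have h2 := hno 2
  have h3 := hno 3
  have h0 : ¬ 0 < det (e 3) (e 1) := h0
  have h1 : ¬ 0 < det (e 0) (e 2) := h1
  have h2 : ¬ 0 < det (e 1) (e 3) := h2
  have h3 : ¬ 0 < det (e 2) (e 0) := h3
  rw [det_swap (e 3)] at h0
  rw [det_swap (e 2)] at h3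
  push Not at h0 h1 h2 h3
  have z02 : det (e 0) (e 2) = 0 := by linarith
  have z13 : det (e 1) (e 3) = 0 := by linarith
  have s1 : 0 < det (e 0) (e 1) := h.pos 1
  have s2 : 0 < det (e 1) (e 2) := h.pos 2
  have s3 : 0 < det (e 2) (e 3) := h.pos 3
  have key : ∀ a b c : ℂ, ‖a‖ = 1 → ‖c‖ = 1 → 0 < det a b → 0 < det b c → det a c = 0 →
      c = -a := by
    intro a b c ha hc hab hbc hac
    have ha0 : a ≠ 0 := by rw [← norm_ne_zero_iff, ha]; norm_num
    rcases H62T.H85.eq_or_neg (a := c) (b := a) (z := I * a) hc ha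
        (mul_ne_zero I_ne_zero ha0) (by
          have : ip c (I * a) = det a c := by
            simp only [ip, det, mul_re, mul_im, I_re, I_im]; ring
          rw [this, hac]) (by simp only [ip, mul_re, mul_im, I_re, I_im]; ring) with h | h
    · exfalso
      rw [h, det_swap] at hbc
      linarith
    · exact h
  exact ⟨key _ _ _ (h.unit 0) (h.unit 2) s1 s2 z02, key _ _ _ (h.unit 1) (h.unit 3) s2 s3 z13⟩

theorem exists_good5 {m : ℕ} {v : Fin (m + 5) → ℂ} (hv : CCW v) :
    ∃ k, 0 < det (ev (n := m + 2) v (k - 1)) (ev (n := m + 2) v (k + 1)) := by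
  obtain ⟨i, hi⟩ := H62T.H85.exists_good (n := m + 5) (by omega) hv
  refine ⟨i + 1, ?_⟩
  rw [add_sub_cancel_right]
  have e1 := det_Ev (n := m + 2) hv i (Ev v (i + 1 + 1))
  rw [e1] at hi
  have h2 := (mul_pos_iff_of_pos_left (sl_pos (n := m + 2) hv i)).1 hi
  have e3 : Ev v (i + 1 + 1) = sl (n := m + 2) v (i + 1 + 1) • ev (n := m + 2) v (i + 1 + 1) :=
    edge_eq (n := m + 2) hv (i + 1 + 1)
  rw [e3, det_smul_right] at h2
  exact (mul_pos_iff_of_pos_left (sl_pos (n := m + 2) hv _)).1 h2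

/-- data for the removal of the side number `k` -/
theorem rem_data {m : ℕ} {v : Fin (m + 4) → ℂ} (hv : CCW v) (k : Fin (m + 4))
    (hk : 0 < det (ev (n := m + 1) v (k - 1)) (ev (n := m + 1) v (k + 1))) :
    ∃ v' : Fin (m + 3) → ℂ, CCW v' ∧
      (0 < det (ev (n := m + 1) v (LP m + (k + 1))) (ev (n := m + 1) v (0 + (k + 1)))) ∧
      ev v' = fun i => ev (n := m + 1) v (i.castSucc + (k + 1)) := by
  have hr := ccw_rot hv (k + 1)
  have h1 : LP m + (k + 1) = k - 1 := by
    rw [← LP_eq]
    have := last_add k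
    calc LL4 m - 1 + (k + 1) = LL4 m + (k + 1) - 1 := by abel
      _ = k - 1 := by rw [this]
  have hD : 0 < det (ev (n := m + 1) v (LP m + (k + 1))) (ev (n := m + 1) v (0 + (k + 1))) := by
    rw [h1, zero_add]; exact hk
  obtain ⟨v', hv', he⟩ := removal (v := fun i => v (i + (k + 1))) hr (by
    rw [ev_rot (n := m + 1), ev_rot (n := m + 1)]; exact hD)
  refine ⟨v', hv', hD, ?_⟩
  rw [he]
  funext i
  exact ev_rot (n := m + 1) v (k + 1) i.castSucc

theorem good_all : ∀ (n : ℕ) (v : Fin (n + 3) → ℂ), CCW v → Good (ev v) := by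
  intro n
  induction n with
  | zero => exact fun v hv => good_three (sp_of_ccw hv)
  | succ m ih =>
    intro v hv
    have hsp := sp_of_ccw hv
    have hstep : ∀ k, 0 < det (ev (n := m + 1) v (k - 1)) (ev (n := m + 1) v (k + 1)) →
        Good (ev (n := m + 1) v) := by
      intro k hk
      obtain ⟨v', hv', hD, he⟩ := rem_data hv k hk
      apply Good.rot (k + 1)
      have hr := sp_of_ccw (n := m + 1) (ccw_rot hv (k + 1))
      have e1 : ev (n := m + 1) (fun i => v (i + (k + 1)))
          = fun i => ev (n := m + 1) v (i + (k + 1)) := by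
        funext i; exact ev_rot (n := m + 1) v (k + 1) i
      rw [e1] at hr
      apply good_step hr hD
      · have := sp_of_ccw hv'
        rw [he] at this
        exact this
      · have := ih v' hv'
        rw [he] at this
        exact this
    rcases m with _ | m
    · by_cases hex : ∃ k, 0 < det (ev (n := 1) v (k - 1)) (ev (n := 1) v (k + 1))
      · obtain ⟨k, hk⟩ := hex
        exact hstep k hk
      · push Not at hex
        obtain ⟨h1, h2⟩ := exists_good4 hsp (fun k => not_lt.2 (hex k))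
        exact good_par hsp h1 h2
    · obtain ⟨k, hk⟩ := exists_good5 hv
      exact hstep k hk

/-! ### translation into the statements -/

theorem ln_eq {n : ℕ} {v : Fin (n + 3) → ℂ} (hv : CCW v) (h : Fin (n + 3) → ℝ)
    (j : Fin (n + 3)) : ln v h j = Lam (ev v) (fun i => Hv v i - h i) j := by
  have s1 := sn_pos hv j
  have s2 := det_succ_pos hv j
  have hu := norm_ev hv
  have hsq : ∀ i, (ev v i).re ^ 2 + (ev v i).im ^ 2 = 1 := by
    intro i
    have : ‖ev v i‖ ^ 2 = 1 := by rw [hu]; norm_num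
    rw [Complex.sq_norm, normSq_apply] at this
    linarith
  have e1 : j + 1 - 1 = j := add_sub_cancel_right _ _
  have e2 : j - 1 + 1 = j := sub_add_cancel _ _
  -- support numbers
  have a1 : Hv v (j - 1) = -det (ev v (j - 1)) (v j) := by
    have h5 := det_edge hv (j - 1)
    rw [e2, det_sub_right] at h5
    unfold Hv uv
    rw [ip_nI]
    linarith
  have a2 : Hv v j = -det (ev v j) (v j) := by unfold Hv uv; rw [ip_nI]
  have a3 : Hv v (j + 1) = -det (ev v (j + 1)) (v j) - sl v j * det (ev v (j + 1)) (ev v j) := by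
    have h5 := edge_eq hv j
    have h6 : v (j + 1) = v j + sl v j • ev v j := by rw [← h5]; ring
    unfold Hv uv
    rw [ip_nI, h6, det_add_right, det_smul_right]
    ring
  have hD : det (ev v (j - 1)) (ev v (j + 1)) = det (ev v (j - 1)) (ev v j) * cs v (j + 1)
      + cs v j * det (ev v j) (ev v (j + 1)) := by
    unfold cs
    rw [e1]
    have := hsq j
    simp only [det, ip]
    linear_combination (-((ev v (j - 1)).re * (ev v (j + 1)).im
      - (ev v (j - 1)).im * (ev v (j + 1)).re)) * this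
  have hdep := dep3 (ev v (j - 1)) (ev v j) (ev v (j + 1)) (v j)
  have s1' := s1.ne'
  have s2' := s2.ne'
  have c1 : sn v j = det (ev v (j - 1)) (ev v j) := rfl
  have c2 : sn v (j + 1) = det (ev v j) (ev v (j + 1)) := by unfold sn; rw [e1]
  unfold Lam ln
  dsimp only
  rw [c1, c2, a1, a2, a3, det_swap (ev v (j + 1)) (ev v j), eq_div_iff (mul_ne_zero s1' s2')]
  have key : det (ev v j) (ev v (j + 1)) * det (ev v (j - 1)) (v j)
      - (det (ev v (j - 1)) (ev v j) * cs v (j + 1) + cs v j * det (ev v j) (ev v (j + 1)))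
        * det (ev v j) (v j) + det (ev v (j - 1)) (ev v j) * det (ev v (j + 1)) (v j) = 0 := by
    rw [← hD]; exact hdep
  rw [hD]
  field_simp
  linear_combination key

theorem set_eq {n : ℕ} (v : Fin (n + 3) → ℂ) (h : Fin (n + 3) → ℝ) :
    Vol (uv v) (Hv v) h = (volume (KG (ev v) (fun i => Hv v i - h i))).toReal := rfl

theorem Wv_eq {n : ℕ} {v : Fin (n + 3) → ℂ} (hv : CCW v) (h : Fin (n + 3) → ℝ) :
    Wv v h = WG (ev v) (fun i => Hv v i - h i) := by
  unfold Wv WG
  simp only [ln_eq hv]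

theorem poly_eq' {n : ℕ} {v : Fin (n + 3) → ℂ} (hv : CCW v) : poly v = Poly (uv v) (Hv v) := by
  have h1 : uv v = nrm v := by funext j; exact uv_eq j
  have h2 : Hv v = off v := by funext j; exact Hv_eq j
  rw [h1, h2]
  exact H62T.H85.poly_eq n3 (ccw_cc.1 hv)

theorem rvw : RvwStatement := by
  intro n v hv
  refine ⟨fun j => sn_pos hv j, poly_eq' hv, fun h hh => ?_⟩
  rw [set_eq, Wv_eq hv]
  apply (good_all n v hv).eq
  intro j
  rw [← ln_eq hv]
  exact hh j

/-- the centre of a ball satisfies the inequalities with a margin -/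
theorem ball_margin {n : ℕ} {u : Fin n → ℂ} {H : Fin n → ℝ} (hu : ∀ i, ‖u i‖ = 1) {r : ℝ}
    (hr : 0 < r) {c : ℂ} (hb : Metric.ball c r ⊆ Poly u H) (i : Fin n) : ip (u i) c + r ≤ H i := by
  apply le_of_forall_pos_lt_add
  intro ε hε
  set s := r - min ε r / 2 with hs
  have h1 : 0 < min ε r := lt_min hε hr
  have h2 : min ε r ≤ ε := min_le_left _ _
  have h3 : min ε r ≤ r := min_le_right _ _
  have hmem : c + s • u i ∈ Metric.ball c r := by
    rw [Metric.mem_ball, dist_eq_norm, add_sub_cancel_left, norm_smul, hu, mul_one,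
      Real.norm_of_nonneg (by rw [hs]; linarith)]
    rw [hs]; linarith
  have h4 := hb hmem i
  rw [ip_add, ip_rsmul] at h4
  have h5 : ip (u i) (u i) = 1 := by
    have : ip (u i) (u i) = ‖u i‖ ^ 2 := by
      rw [Complex.sq_norm, normSq_apply, ip]
    rw [this, hu]; norm_num
  rw [h5] at h4
  linarith

theorem norm_uv {n : ℕ} {v : Fin (n + 3) → ℂ} (hv : CCW v) (j : Fin (n + 3)) : ‖uv v j‖ = 1 := by
  unfold uv
  rw [norm_mul, norm_neg, Complex.norm_I, one_mul, norm_ev hv]

theorem rlb : RlbStatement := by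
  intro n v hn hv r hr hball h h0 hr'
  obtain ⟨c, hc⟩ := hball
  rw [poly_eq' hv] at hc
  have hmar := ball_margin (norm_uv hv) hr hc
  have hne : (KG (ev v) (fun i => Hv v i - h i)).Nonempty := by
    refine ⟨c, fun i => ?_⟩
    have h1 := hmar i
    have h2 := hr' i
    change ip (uv v i) c ≤ Hv v i - h i
    linarith
  rw [set_eq, Wv_eq hv]
  refine ⟨(good_all n v hv).low _ hne, fun k hk => ?_⟩
  obtain ⟨m, rfl⟩ : ∃ m, n = m + 1 := ⟨n - 1, by omega⟩
  rw [ln_eq hv]
  obtain ⟨v', hv', hD, he⟩ := rem_data hv k hk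
  have hr := sp_of_ccw (n := m + 1) (ccw_rot hv (k + 1))
  have e1 : ev (n := m + 1) (fun i => v (i + (k + 1)))
      = fun i => ev (n := m + 1) v (i + (k + 1)) := by
    funext i; exact ev_rot (n := m + 1) v (k + 1) i
  rw [e1] at hr
  have hg := good_all m v' hv'
  rw [he] at hg
  have key := low_last (e := fun i => ev (n := m + 1) v (i + (k + 1))) hr hD hg
    (fun i => Hv v (i + (k + 1)) - h (i + (k + 1))) (by
      rw [KG_rot (ev (n := m + 1) v) (fun i => Hv v i - h i) (k + 1)]
      exact hne)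
  rw [KG_rot (ev (n := m + 1) v) (fun i => Hv v i - h i) (k + 1),
    WG_rot (ev (n := m + 1) v) (fun i => Hv v i - h i) (k + 1),
    Lam_rot (ev (n := m + 1) v) (fun i => Hv v i - h i) (k + 1)] at key
  have h1 : LL4 m + (k + 1) = k := last_add k
  have h2 : LP m + (k + 1) = k - 1 := by
    rw [← LP_eq]
    calc LL4 m - 1 + (k + 1) = LL4 m + (k + 1) - 1 := by abel
      _ = k - 1 := by rw [h1]
  have h3 : (0 : Fin (m + 4)) + (k + 1) = k + 1 := zero_add _
  simp only [h1, h2, h3] at key
  have c1 : sn (n := m + 1) v k = det (ev (n := m + 1) v (k - 1)) (ev (n := m + 1) v k) := rfl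
  have c2 : sn (n := m + 1) v (k + 1)
      = det (ev (n := m + 1) v k) (ev (n := m + 1) v (k + 1)) := by
    unfold sn; rw [add_sub_cancel_right]
  rw [c1, c2]
  exact key

end Pool.Agent.H5O.H85
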