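import Pool.Agent.Helper5_OPEN.DefsR
import Pool.Agent.Helper85_TRI.Side
import Pool.Agent.Helper59_TRI.Area
import Pool.Agent.Helper60_TRI.Tvol

/-!
Squad OPEN, modules RVW, RLB: regions with given outer normals, formal side lengths, area of a
corner.
-/

namespace Pool.Agent.H5O.H85

open MeasureTheory Complex Filter Topology Pool.Agent.H16Iso Pool.Agent.H1Gen
open Pool.Agent.H62T (ip Poly Vol dt)
open Pool.Agent.H62T.H85 (Ev nrm off CC Cfg Cap ipL ip_add ip_sub ip_rsmul)

/-- the closed region with outer normals `-I e_i` and support numbers `G_i` -/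
def KG {n : ℕ} (e : Fin n → ℂ) (G : Fin n → ℝ) : Set ℂ := {x | ∀ i, ip (-I * e i) x ≤ G i}

/-- formal side length -/
noncomputable def Lam {n : ℕ} [NeZero n] (e : Fin n → ℂ) (G : Fin n → ℝ) (j : Fin n) : ℝ :=
  (det (e j) (e (j + 1)) * G (j - 1) + det (e (j - 1)) (e j) * G (j + 1)
    - det (e (j - 1)) (e (j + 1)) * G j) / (det (e (j - 1)) (e j) * det (e j) (e (j + 1)))

/-- formal area -/
noncomputable def WG {n : ℕ} [NeZero n] (e : Fin n → ℂ) (G : Fin n → ℝ) : ℝ :=
  (∑ j, G j * Lam e G j) / 2

theorem ip_nI (a b : ℂ) : ip (-I * a) b = -det a b := by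
  simp only [ip, det, mul_re, mul_im, neg_re, neg_im, I_re, I_im]; ring

theorem det_nI (a b : ℂ) : dt (-I * a) (-I * b) = det a b := by
  simp only [dt, det, mul_re, mul_im, neg_re, neg_im, I_re, I_im]; ring

theorem plucker (a b c d : ℂ) :
    det a b * det c d - det a c * det b d + det a d * det b c = 0 := by
  simp only [det]; ring

theorem dep3 (a b c x : ℂ) :
    det b c * det a x - det a c * det b x + det a b * det c x = 0 := by
  simp only [det]; ring

theorem isClosed_KG {n : ℕ} (e : Fin n → ℂ) (G : Fin n → ℝ) : IsClosed (KG e G) := by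
  have : KG e G = ⋂ i, {x | ip (-I * e i) x ≤ G i} := by
    ext x; simp [KG]
  rw [this]
  exact isClosed_iInter fun i => isClosed_le (H62T.H85.continuous_ip _) continuous_const

/-! ### the vertices -/

/-- intersection of the boundary lines number `k - 1` and `k` -/
noncomputable def wt {n : ℕ} [NeZero n] (e : Fin n → ℂ) (G : Fin n → ℝ) (k : Fin n) : ℂ :=
  (G k / det (e (k - 1)) (e k)) • e (k - 1) - (G (k - 1) / det (e (k - 1)) (e k)) • e k

theorem ip_smul_sub (u a b : ℂ) (x y : ℝ) : ip u (x • a - y • b) = x * ip u a - y * ip u b := by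
  rw [ip_sub, ip_rsmul, ip_rsmul]

section

variable {n : ℕ} [NeZero n] {e : Fin n → ℂ} (hs : ∀ k, 0 < det (e (k - 1)) (e k))
include hs

theorem wt_left (G : Fin n → ℝ) (k : Fin n) : ip (-I * e (k - 1)) (wt e G k) = G (k - 1) := by
  have h := (hs k).ne'
  unfold wt
  rw [ip_smul_sub, ip_nI, ip_nI, det_self]
  field_simp
  ring

theorem wt_right (G : Fin n → ℝ) (k : Fin n) : ip (-I * e k) (wt e G k) = G k := by
  have h := (hs k).ne'
  unfold wt
  rw [ip_smul_sub, ip_nI, ip_nI, det_self, det_swap (e k)]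
  field_simp
  ring

theorem wt_unique (G : Fin n → ℝ) (k : Fin n) {x : ℂ} (h1 : ip (-I * e (k - 1)) x = G (k - 1))
    (h2 : ip (-I * e k) x = G k) : x = wt e G k := by
  have h := (hs k).ne'
  rw [ip_nI] at h1 h2
  refine (cramer h x).trans ?_
  unfold wt
  rw [← h1, ← h2, det_swap x (e k), neg_div (det (e (k - 1)) (e k)) (det (e (k - 1)) x), neg_smul,
    sub_neg_eq_add]

/-- consecutive vertices -/
theorem wt_succ (G : Fin n → ℝ) (k : Fin n) : wt e G (k + 1) - wt e G k = Lam e G k • e k := by
  have h1 := (hs k).ne'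
  have h2 := (hs (k + 1)).ne'
  have e1 : k + 1 - 1 = k := add_sub_cancel_right _ _
  rw [e1] at h2
  have key : ∀ y, det y (wt e G (k + 1) - wt e G k) = det y (Lam e G k • e k) := by
    intro y
    unfold wt Lam
    rw [e1]
    simp only [det_sub_right, det_smul_right]
    have h3 := dep3 (e (k - 1)) (e k) (e (k + 1)) y
    rw [det_swap _ y, det_swap _ y, det_swap _ y] at h3
    field_simp
    linear_combination (G k) * h3
  have k1 := key 1
  have k2 := key I
  apply Complex.ext
  · have : ∀ z, det I z = -z.re := by intro z; simp [det]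
    rw [this, this] at k2
    linarith
  · have : ∀ z, det 1 z = z.im := by intro z; simp [det]
    rw [this, this] at k1
    exact k1

end

/-! ### rotation of the indices -/

section

variable {n : ℕ} [NeZero n]

theorem KG_rot (e : Fin n → ℂ) (G : Fin n → ℝ) (c : Fin n) :
    KG (fun i => e (i + c)) (fun i => G (i + c)) = KG e G := by
  ext x
  simp only [KG, Set.mem_ofPred_eq]
  constructor
  · intro h i
    have := h (i - c)
    simpa using this
  · intro h i
    exact h _

theorem Lam_rot (e : Fin n → ℂ) (G : Fin n → ℝ) (c j : Fin n) :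
    Lam (fun i => e (i + c)) (fun i => G (i + c)) j = Lam e G (j + c) := by
  have e1 : j + 1 + c = j + c + 1 := add_right_comm _ _ _
  have e2 : j - 1 + c = j + c - 1 := sub_add_eq_add_sub _ _ _
  unfold Lam
  simp only [e1, e2]

theorem WG_rot (e : Fin n → ℂ) (G : Fin n → ℝ) (c : Fin n) :
    WG (fun i => e (i + c)) (fun i => G (i + c)) = WG e G := by
  unfold WG
  congr 1
  simp only [Lam_rot]
  exact Fintype.sum_equiv (Equiv.addRight c) _ _ fun i => rfl

end

/-! ### exact area of a corner -/

/-- the closed corner -/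
def CapC (a b e : ℂ) (A B E : ℝ) : Set ℂ := {x | ip a x ≤ A ∧ ip b x ≤ B ∧ E ≤ ip e x}

theorem capC_volume {a b e : ℂ} (h : Cfg a e b) (A B E : ℝ) :
    volume (CapC a b e A B E) = ENNReal.ofReal (dt a b / (2 * dt a e * dt e b)
      * max (dt e b / dt a b * A + dt a e / dt a b * B - E) 0 ^ 2) := by
  have hα := h.alpha_pos
  have hβ := h.beta_pos
  have hab := h.hab
  have hae := h.hae
  have heb := h.heb
  set α := dt e b / dt a b with hαd
  set β := dt a e / dt a b with hβd
  set p : ℂ := ⟨-α * a.re, -β * b.re⟩ with hp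
  set q : ℂ := ⟨-α * a.im, -β * b.im⟩ with hq
  set f : ℂ →L[ℝ] ℂ := H1Gen.linPQ p q with hf
  have hdet : LinearMap.det (f : ℂ →ₗ[ℝ] ℂ) = α * β * dt a b := by
    have h1 : (H1Gen.linPQ p q).det = H1Gen.det p q := H1Gen.linPQ_det p q
    have h2 : H1Gen.det p q = α * β * dt a b := by
      unfold H1Gen.det dt; simp only [hp, hq]
      ring
    rw [← h2, ← h1]
  have hdpos : 0 < α * β * dt a b := by positivity
  have hset : CapC a b e A B E = (f : ℂ →ₗ[ℝ] ℂ) ⁻¹'
      {z : ℂ | -α * A ≤ z.re ∧ -β * B ≤ z.im ∧ z.re + z.im ≤ 1 - (1 + E)} := by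
    ext x
    have k1 : (f x).re = -α * ip a x := by
      change (H1Gen.linPQ p q x).re = _
      rw [H1Gen.linPQ_apply]
      unfold ip; simp [p, q]; ring
    have k2 : (f x).im = -β * ip b x := by
      change (H1Gen.linPQ p q x).im = _
      rw [H1Gen.linPQ_apply]
      unfold ip; simp [p, q]; ring
    have k3 := h.ip_e x
    rw [← hαd, ← hβd] at k3
    simp only [CapC, Set.mem_preimage, Set.mem_ofPred_eq, ContinuousLinearMap.coe_coe, k1, k2, k3]
    constructor
    · rintro ⟨g1, g2, g3⟩
      refine ⟨?_, ?_, by linarith⟩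
      · have := mul_le_mul_of_nonneg_left g1 hα.le
        linarith
      · have := mul_le_mul_of_nonneg_left g2 hβ.le
        linarith
    · rintro ⟨g1, g2, g3⟩
      refine ⟨?_, ?_, by linarith⟩
      · have : α * ip a x ≤ α * A := by linarith
        exact le_of_mul_le_mul_left this hα
      · have : β * ip b x ≤ β * B := by linarith
        exact le_of_mul_le_mul_left this hβ
  rw [hset, Measure.addHaar_preimage_linearMap _ (by rw [hdet]; exact hdpos.ne'), hdet,
    H62T.H60.volume_simplex, ← ENNReal.ofReal_mul (abs_nonneg _)]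
  congr 1
  rw [abs_of_pos (inv_pos.2 hdpos)]
  have e1 : (1 - (1 + E + -α * A + -β * B)) = α * A + β * B - E := by ring
  rw [e1]
  have e2 : (α * β * dt a b)⁻¹ = 2 * (dt a b / (2 * dt a e * dt e b)) := by
    rw [hαd, hβd]
    field_simp
  rw [e2]
  ring

theorem cap_volume' {a b e : ℂ} (h : Cfg a e b) (he : ‖e‖ = 1) (A B E : ℝ) :
    volume (Cap a b e A B E) = ENNReal.ofReal (dt a b / (2 * dt a e * dt e b)
      * max (dt e b / dt a b * A + dt a e / dt a b * B - E) 0 ^ 2) := by
  rw [← capC_volume h]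
  apply le_antisymm
  · apply measure_mono
    rintro x ⟨h1, h2, h3⟩
    exact ⟨h1, h2, h3.le⟩
  · have hsub : CapC a b e A B E ⊆ Cap a b e A B E ∪ {x | ip e x = E} := by
      rintro x ⟨h1, h2, h3⟩
      rcases h3.lt_or_eq with h4 | h4
      · exact Or.inl ⟨h1, h2, h4⟩
      · exact Or.inr h4.symm
    refine (measure_mono hsub).trans ((measure_union_le _ _).trans ?_)
    rw [H62T.H60.volume_line e he E, add_zero]

end Pool.Agent.H5O.H85
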