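import Pool.Agent.Helper85_OPEN.Rem2

/-!
Squad OPEN, modules RVW, RLB: the induction.
-/

namespace Pool.Agent.H5O.H85

open MeasureTheory Complex Filter Topology Pool.Agent.H16Iso Pool.Agent.H1Gen
open Pool.Agent.H62T (ip Poly Vol dt)
open Pool.Agent.H62T.H85 (Ev nrm off CC Cfg Cap ipL ip_add ip_sub ip_rsmul)
open scoped Fin.CommRing Fin.NatCast

/-- the properties proved by induction -/
structure Good {n : ℕ} [NeZero n] (e : Fin n → ℂ) : Prop where
  fin : ∀ G, volume (KG e G) ≠ ⊤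
  low : ∀ G, (KG e G).Nonempty → WG e G ≤ (volume (KG e G)).toReal
  eq : ∀ G, (∀ j, 0 ≤ Lam e G j) → (volume (KG e G)).toReal = WG e G

theorem Good.rot {n : ℕ} [NeZero n] {e : Fin n → ℂ} (c : Fin n)
    (h : Good fun i => e (i + c)) : Good e := by
  refine ⟨fun G => ?_, fun G hG => ?_, fun G hG => ?_⟩
  · rw [← KG_rot e G c]
    exact h.fin _
  · rw [← KG_rot e G c, ← WG_rot e G c]
    apply h.low
    rw [KG_rot]
    exact hG
  · rw [← KG_rot e G c, ← WG_rot e G c]
    apply h.eq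
    intro j
    rw [Lam_rot]
    exact hG _

section step

variable {m : ℕ} {e : Fin (m + 4) → ℂ}

theorem cfg_last (h : SP e) (hD : 0 < det (e (LP m)) (e 0)) :
    Cfg (-I * e (LP m)) (-I * e (LL4 m)) (-I * e 0) := by
  have sL : 0 < det (e (LP m)) (e (LL4 m)) := by
    have := h.pos (LL4 m)
    rwa [LP_eq] at this
  have s0 : 0 < det (e (LL4 m)) (e 0) := by
    have := h.pos 0
    rwa [show (0 : Fin (m + 4)) - 1 = LL4 m from zero_pred] at this
  exact ⟨by rw [det_nI]; exact hD, by rw [det_nI]; exact sL, by rw [det_nI]; exact s0⟩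

/-- the corner that is cut off -/
def Cp (e : Fin (m + 4) → ℂ) (G : Fin (m + 4) → ℝ) : Set ℂ :=
  Cap (-I * e (LP m)) (-I * e 0) (-I * e (LL4 m)) (G (LP m)) (G 0) (G (LL4 m))

theorem lam_L (h : SP e) (hD : 0 < det (e (LP m)) (e 0)) (G : Fin (m + 4) → ℝ) :
    det (e (LP m)) (e (LL4 m)) * det (e (LL4 m)) (e 0) / det (e (LP m)) (e 0) * Lam e G (LL4 m)
      = det (e (LL4 m)) (e 0) / det (e (LP m)) (e 0) * G (LP m)
        + det (e (LP m)) (e (LL4 m)) / det (e (LP m)) (e 0) * G 0 - G (LL4 m) := by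
  have h4 : LL4 m + 1 = 0 := Fin.last_add_one _
  have s0 := (h.pos 0).ne'
  have sL := (h.pos (LL4 m)).ne'
  rw [show (0 : Fin (m + 4)) - 1 = LL4 m from zero_pred] at s0
  rw [LP_eq] at sL
  have hD' := hD.ne'
  unfold Lam
  rw [h4, LP_eq]
  field_simp

theorem cp_volume (h : SP e) (hD : 0 < det (e (LP m)) (e 0)) (G : Fin (m + 4) → ℝ) :
    volume (Cp e G) = ENNReal.ofReal (det (e (LP m)) (e (LL4 m)) * det (e (LL4 m)) (e 0)
      / (2 * det (e (LP m)) (e 0)) * max (Lam e G (LL4 m)) 0 ^ 2) := by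
  have sL : 0 < det (e (LP m)) (e (LL4 m)) := by
    have := h.pos (LL4 m)
    rwa [LP_eq] at this
  have s0 : 0 < det (e (LL4 m)) (e 0) := by
    have := h.pos 0
    rwa [show (0 : Fin (m + 4)) - 1 = LL4 m from zero_pred] at this
  have hu : ‖-I * e (LL4 m)‖ = 1 := by
    rw [norm_mul, norm_neg, Complex.norm_I, one_mul, h.unit]
  unfold Cp
  rw [cap_volume' (cfg_last h hD) hu, det_nI, det_nI, det_nI, ← lam_L h hD]
  congr 1
  have hpos : 0 ≤ det (e (LP m)) (e (LL4 m)) * det (e (LL4 m)) (e 0) / det (e (LP m)) (e 0) := by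
    positivity
  have hmax : max (det (e (LP m)) (e (LL4 m)) * det (e (LL4 m)) (e 0) / det (e (LP m)) (e 0)
      * Lam e G (LL4 m)) 0 = det (e (LP m)) (e (LL4 m)) * det (e (LL4 m)) (e 0)
        / det (e (LP m)) (e 0) * max (Lam e G (LL4 m)) 0 := by
    rw [mul_max_of_nonneg _ _ hpos, mul_zero]
  rw [hmax]
  field_simp

/-- the larger region -/
abbrev K' (e : Fin (m + 4) → ℂ) (G : Fin (m + 4) → ℝ) : Set ℂ :=
  KG (fun i : Fin (m + 3) => e i.castSucc) (fun i => G i.castSucc)

/-- the larger formal area -/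
noncomputable abbrev W' (e : Fin (m + 4) → ℂ) (G : Fin (m + 4) → ℝ) : ℝ :=
  WG (fun i : Fin (m + 3) => e i.castSucc) (fun i => G i.castSucc)

theorem sdiff_sub (G : Fin (m + 4) → ℝ) :
    K' e G \ {x | ip (-I * e (LL4 m)) x ≤ G (LL4 m)} ⊆ Cp e G := by
  rintro x ⟨h1, h2⟩
  refine ⟨h1 (Fin.last (m + 2)), ?_, not_le.1 h2⟩
  have := h1 0
  exact this

theorem vol_last {G : Fin (m + 4) → ℝ} (hfin : volume (K' e G) ≠ ⊤) :
    (volume (KG e G)).toReal = (volume (K' e G)).toReal
      - (volume (K' e G \ {x | ip (-I * e (LL4 m)) x ≤ G (LL4 m)})).toReal := by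
  set S := K' e G with hS
  set T := {x : ℂ | ip (-I * e (LL4 m)) x ≤ G (LL4 m)} with hT
  have hTm : MeasurableSet T :=
    (isClosed_le (H62T.H85.continuous_ip _) continuous_const).measurableSet
  have h2 := measure_inter_add_sdiff (μ := volume) S hTm
  have h3 : volume (S ∩ T) ≠ ⊤ := measure_ne_top_of_subset Set.inter_subset_left hfin
  have h4 : volume (S \ T) ≠ ⊤ := measure_ne_top_of_subset Set.sdiff_subset hfin
  rw [KG_last]
  change (volume (S ∩ T)).toReal = _
  rw [← h2, ENNReal.toReal_add h3 h4]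
  ring

/-- lower bound -/
theorem low_last (h : SP e) (hD : 0 < det (e (LP m)) (e 0))
    (hg : Good (fun i : Fin (m + 3) => e i.castSucc)) (G : Fin (m + 4) → ℝ)
    (hG : (KG e G).Nonempty) :
    WG e G + det (e (LP m)) (e (LL4 m)) * det (e (LL4 m)) (e 0) / (2 * det (e (LP m)) (e 0))
      * min (Lam e G (LL4 m)) 0 ^ 2 ≤ (volume (KG e G)).toReal := by
  have sL : 0 < det (e (LP m)) (e (LL4 m)) := by
    have := h.pos (LL4 m)
    rwa [LP_eq] at this
  have s0 : 0 < det (e (LL4 m)) (e 0) := by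
    have := h.pos 0
    rwa [show (0 : Fin (m + 4)) - 1 = LL4 m from zero_pred] at this
  have hne : (K' e G).Nonempty := by
    rw [KG_last] at hG
    exact hG.mono Set.inter_subset_left
  have h1 := hg.low (fun i => G i.castSucc) hne
  have h2 := wG_last (e := e) (G := G) h.pos hD
  have h3 := vol_last (e := e) (G := G) (hg.fin _)
  have h4 : (volume (K' e G \ {x | ip (-I * e (LL4 m)) x ≤ G (LL4 m)})).toReal
      ≤ det (e (LP m)) (e (LL4 m)) * det (e (LL4 m)) (e 0)
      / (2 * det (e (LP m)) (e 0)) * max (Lam e G (LL4 m)) 0 ^ 2 := by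
    have h5 := ENNReal.toReal_mono (by rw [cp_volume h hD]; exact ENNReal.ofReal_ne_top)
      (measure_mono (sdiff_sub (e := e) G))
    rw [cp_volume h hD, ENNReal.toReal_ofReal (by positivity)] at h5
    exact h5
  rw [h3]
  have h6 : Lam e G (LL4 m) ^ 2 = max (Lam e G (LL4 m)) 0 ^ 2 + min (Lam e G (LL4 m)) 0 ^ 2 := by
    rcases le_total (Lam e G (LL4 m)) 0 with h7 | h7
    · rw [max_eq_right h7, min_eq_left h7]; ring
    · rw [max_eq_left h7, min_eq_right h7]; ring
  rw [h6, mul_add] at h2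
  linarith

theorem sub_of_lam (h : SP e) (hD : 0 < det (e (LP m)) (e 0))
    (h' : SP (fun i : Fin (m + 3) => e i.castSucc)) {G : Fin (m + 4) → ℝ}
    (hG : ∀ j, 0 ≤ Lam e G j) (hG' : ∀ j, 0 ≤ Lam (fun i : Fin (m + 3) => e i.castSucc)
      (fun i => G i.castSucc) j) :
    Cp e G ⊆ K' e G := by
  rintro x ⟨x1, x2, x3⟩
  have hc := cfg_last h hD
  set w := wt (fun i : Fin (m + 3) => e i.castSucc) (fun i => G i.castSucc) 0 with hw
  set p := wt e G (LL4 m) with hp
  set q := wt e G 0 with hq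
  have hwmem : w ∈ K' e G := h'.wt_mem hG' 0
  have hpmem : p ∈ K' e G := by
    have := h.wt_mem hG (LL4 m)
    rw [KG_last] at this
    exact this.1
  have hqmem : q ∈ K' e G := by
    have := h.wt_mem hG 0
    rw [KG_last] at this
    exact this.1
  have hwa : ip (-I * e (LP m)) w = G (LP m) := by
    have := wt_left (e := fun i : Fin (m + 3) => e i.castSucc) h'.pos (fun i => G i.castSucc) 0
    rw [zero_pred] at this
    exact this
  have hwb : ip (-I * e 0) w = G 0 :=
    wt_right (e := fun i : Fin (m + 3) => e i.castSucc) h'.pos (fun i => G i.castSucc) 0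
  have hpa : ip (-I * e (LP m)) p = G (LP m) := by
    have := wt_left h.pos G (LL4 m)
    rw [LP_eq] at this
    exact this
  have hpe : ip (-I * e (LL4 m)) p = G (LL4 m) := wt_right h.pos G (LL4 m)
  have hqb : ip (-I * e 0) q = G 0 := wt_right h.pos G 0
  have hqe : ip (-I * e (LL4 m)) q = G (LL4 m) := by
    have := wt_left h.pos G 0
    rw [show (0 : Fin (m + 4)) - 1 = LL4 m from zero_pred] at this
    exact this
  have hM : G (LL4 m) < ip (-I * e (LL4 m)) w := by
    have k1 := hc.ip_e x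
    have k2 := hc.ip_e w
    rw [hwa, hwb] at k2
    have g1 := mul_le_mul_of_nonneg_left x1 hc.alpha_pos.le
    have g2 := mul_le_mul_of_nonneg_left x2 hc.beta_pos.le
    linarith
  obtain ⟨l, n, hln, hl, hn, hsum⟩ := hc.bary hwa hwb hpa hpe hqb hqe hM x
  have hl0 := hl x1
  have hn0 := hn x2
  have h1 : 0 ≤ 1 - l - n := by
    by_contra hcon
    push Not at hcon
    have hM0 : 0 < ip (-I * e (LL4 m)) w - G (LL4 m) := sub_pos.2 hM
    have := mul_lt_mul_of_pos_right (show 1 < l + n by linarith) hM0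
    linarith
  intro i
  rw [hln]
  have g1 := mul_le_mul_of_nonneg_left (hwmem i) h1
  have g2 := mul_le_mul_of_nonneg_left (hpmem i) hn0
  have g3 := mul_le_mul_of_nonneg_left (hqmem i) hl0
  have : (1 - l - n) * G i.castSucc + n * G i.castSucc + l * G i.castSucc = G i.castSucc := by ring
  linarith

theorem eq_last (h : SP e) (hD : 0 < det (e (LP m)) (e 0))
    (h' : SP (fun i : Fin (m + 3) => e i.castSucc))
    (hg : Good (fun i : Fin (m + 3) => e i.castSucc)) (G : Fin (m + 4) → ℝ)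
    (hG : ∀ j, 0 ≤ Lam e G j) : (volume (KG e G)).toReal = WG e G := by
  have sL : 0 < det (e (LP m)) (e (LL4 m)) := by
    have := h.pos (LL4 m)
    rwa [LP_eq] at this
  have s0 : 0 < det (e (LL4 m)) (e 0) := by
    have := h.pos 0
    rwa [show (0 : Fin (m + 4)) - 1 = LL4 m from zero_pred] at this
  have hG' : ∀ j, 0 ≤ Lam (fun i : Fin (m + 3) => e i.castSucc) (fun i => G i.castSucc) j := by
    intro j
    by_cases h0 : j = 0
    · subst h0
      rw [lam_zero h.pos hD]
      have := hG 0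
      have := hG (LL4 m)
      positivity
    · by_cases h1 : j = Fin.last (m + 2)
      · subst h1
        rw [lam_last h.pos hD]
        have := hG (LP m)
        have := hG (LL4 m)
        positivity
      · rw [lam_mid j h0 h1]
        exact hG _
  have h1 := hg.eq (fun i => G i.castSucc) hG'
  have h2 := wG_last (e := e) (G := G) h.pos hD
  have h3 := vol_last (e := e) (G := G) (hg.fin _)
  have hsub := sub_of_lam h hD h' hG hG'
  have hset : K' e G \ {x | ip (-I * e (LL4 m)) x ≤ G (LL4 m)} = Cp e G := by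
    apply Set.Subset.antisymm (sdiff_sub G)
    intro x hx
    exact ⟨hsub hx, not_le.2 hx.2.2⟩
  rw [hset, cp_volume h hD, ENNReal.toReal_ofReal (by positivity), max_eq_left (hG _), h1, h2] at h3
  rw [h3]
  ring

theorem good_step (h : SP e) (hD : 0 < det (e (LP m)) (e 0))
    (h' : SP (fun i : Fin (m + 3) => e i.castSucc))
    (hg : Good (fun i : Fin (m + 3) => e i.castSucc)) : Good e := by
  refine ⟨fun G => ?_, fun G hG => ?_, fun G hG => eq_last h hD h' hg G hG⟩
  · rw [KG_last]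
    exact measure_ne_top_of_subset Set.inter_subset_left (hg.fin _)
  · have sL : 0 < det (e (LP m)) (e (LL4 m)) := by
      have := h.pos (LL4 m)
      rwa [LP_eq] at this
    have s0 : 0 < det (e (LL4 m)) (e 0) := by
      have := h.pos 0
      rwa [show (0 : Fin (m + 4)) - 1 = LL4 m from zero_pred] at this
    have h1 := low_last h hD hg G hG
    have h2 : 0 ≤ det (e (LP m)) (e (LL4 m)) * det (e (LL4 m)) (e 0)
      / (2 * det (e (LP m)) (e 0)) * min (Lam e G (LL4 m)) 0 ^ 2 := by positivity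
    linarith

end step

/-! ### triangles -/

theorem good_three {e : Fin 3 → ℂ} (h : SP e) : Good e := by
  have s0 : 0 < det (e 2) (e 0) := h.pos 0
  have s1 : 0 < det (e 0) (e 1) := h.pos 1
  have s2 : 0 < det (e 1) (e 2) := h.pos 2
  have hc : Cfg (-I * e 0) (-(-I * e 2)) (-I * e 1) := by
    have k : ∀ a b : ℂ, dt (-a) b = -dt a b := by intro a b; simp [dt]; ring
    have k' : ∀ a b : ℂ, dt a (-b) = -dt a b := by intro a b; simp [dt]; ring
    refine ⟨by rw [det_nI]; exact s1, ?_, ?_⟩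
    · rw [k', det_nI, det_swap (e 0)]; linarith
    · rw [k, det_nI, det_swap (e 2)]; linarith
  have hset : ∀ G : Fin 3 → ℝ, KG e G
      = CapC (-I * e 0) (-I * e 1) (-(-I * e 2)) (G 0) (G 1) (-(G 2)) := by
    intro G
    have k : ∀ a x : ℂ, ip (-a) x = -ip a x := by intro a x; simp [ip]; ring
    ext x
    simp only [KG, CapC, Set.mem_ofPred_eq, Fin.forall_fin_succ,
      IsEmpty.forall_iff, and_true, k]
    constructor
    · rintro ⟨h1, h2, h3⟩
      exact ⟨h1, h2, neg_le_neg h3⟩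
    · rintro ⟨h1, h2, h3⟩
      exact ⟨h1, h2, neg_le_neg_iff.1 h3⟩
  set T : (Fin 3 → ℝ) → ℝ := fun G =>
    det (e 0) (e 1) * G 2 + det (e 2) (e 0) * G 1 + det (e 1) (e 2) * G 0 with hT
  have hvol : ∀ G : Fin 3 → ℝ, volume (KG e G) = ENNReal.ofReal
      (max (T G) 0 ^ 2 / (2 * det (e 2) (e 0) * det (e 0) (e 1) * det (e 1) (e 2))) := by
    intro G
    have k : ∀ a b : ℂ, dt (-a) b = -dt a b := by intro a b; simp [dt]; ring
    have k' : ∀ a b : ℂ, dt a (-b) = -dt a b := by intro a b; simp [dt]; ring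
    rw [hset, capC_volume hc, k, k', det_nI, det_nI, det_nI, det_swap (e 0) (e 2),
      det_swap (e 2) (e 1)]
    congr 1
    simp only [neg_neg, sub_neg_eq_add]
    have e1 : det (e 1) (e 2) / det (e 0) (e 1) * G 0 + det (e 2) (e 0) / det (e 0) (e 1) * G 1
        + G 2 = (1 / det (e 0) (e 1)) * T G := by
      simp only [hT]; field_simp; ring
    have hmax : max ((1 / det (e 0) (e 1)) * T G) 0 = (1 / det (e 0) (e 1)) * max (T G) 0 := by
      rw [mul_max_of_nonneg _ _ (by positivity), mul_zero]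
    rw [e1, hmax]
    field_simp
  have hlam : ∀ G : Fin 3 → ℝ, Lam e G 0 = T G / (det (e 2) (e 0) * det (e 0) (e 1))
      ∧ Lam e G 1 = T G / (det (e 0) (e 1) * det (e 1) (e 2))
      ∧ Lam e G 2 = T G / (det (e 1) (e 2) * det (e 2) (e 0)) := by
    intro G
    refine ⟨?_, ?_, ?_⟩
    · change (det (e 0) (e 1) * G 2 + det (e 2) (e 0) * G 1 - det (e 2) (e 1) * G 0)
        / (det (e 2) (e 0) * det (e 0) (e 1)) = _
      rw [det_swap (e 2) (e 1)]
      simp only [hT]
      congr 1
      ring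
    · change (det (e 1) (e 2) * G 0 + det (e 0) (e 1) * G 2 - det (e 0) (e 2) * G 1)
        / (det (e 0) (e 1) * det (e 1) (e 2)) = _
      rw [det_swap (e 0) (e 2)]
      simp only [hT]
      congr 1
      ring
    · change (det (e 2) (e 0) * G 1 + det (e 1) (e 2) * G 0 - det (e 1) (e 0) * G 2)
        / (det (e 1) (e 2) * det (e 2) (e 0)) = _
      rw [det_swap (e 1) (e 0)]
      simp only [hT]
      congr 1
      ring
  have hWG : ∀ G : Fin 3 → ℝ, WG e G
      = T G ^ 2 / (2 * det (e 2) (e 0) * det (e 0) (e 1) * det (e 1) (e 2)) := by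
    intro G
    obtain ⟨h1, h2, h3⟩ := hlam G
    unfold WG
    rw [Fin.sum_univ_three, h1, h2, h3]
    have : G 0 * (T G / (det (e 2) (e 0) * det (e 0) (e 1)))
        + G 1 * (T G / (det (e 0) (e 1) * det (e 1) (e 2)))
        + G 2 * (T G / (det (e 1) (e 2) * det (e 2) (e 0)))
        = T G * T G / (det (e 2) (e 0) * det (e 0) (e 1) * det (e 1) (e 2)) := by
      conv_rhs => rw [hT]
      dsimp only
      field_simp
      ring
    rw [this]
    field_simp
  have hTn : ∀ G : Fin 3 → ℝ, 0 ≤ T G → (volume (KG e G)).toReal = WG e G := by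
    intro G hG
    rw [hvol, hWG, max_eq_left hG, ENNReal.toReal_ofReal (by positivity)]
  refine ⟨fun G => by rw [hvol]; exact ENNReal.ofReal_ne_top, fun G hG => ?_, fun G hG => ?_⟩
  · obtain ⟨c, hc⟩ := hG
    refine (hTn G ?_).ge
    have h0 := mul_le_mul_of_nonneg_left (hc 0) s2.le
    have h1 := mul_le_mul_of_nonneg_left (hc 1) s0.le
    have h2 := mul_le_mul_of_nonneg_left (hc 2) s1.le
    rw [ip_nI] at h0 h1 h2
    have hd := dep3 (e 0) (e 1) (e 2) c
    rw [det_swap (e 0) (e 2)] at hd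
    simp only [hT]
    linarith
  · apply hTn
    obtain ⟨h1, -, -⟩ := hlam G
    have h2 := hG 0
    rw [h1] at h2
    by_contra hcon
    push Not at hcon
    have := div_neg_of_neg_of_pos hcon (mul_pos s0 s1)
    linarith

/-! ### parallelograms -/

theorem good_par {e : Fin 4 → ℂ} (h : SP e) (h02 : e 2 = -e 0) (h13 : e 3 = -e 1) : Good e := by
  have s1 : 0 < det (e 0) (e 1) := h.pos 1
  have hset : ∀ G : Fin 4 → ℝ, KG e G
      = {x : ℂ | (-(G 2) ≤ ip (-I * e 0) x ∧ ip (-I * e 0) x ≤ G 0)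
        ∧ -(G 3) ≤ ip (-I * e 1) x ∧ ip (-I * e 1) x ≤ G 1} := by
    intro G
    have k : ∀ a x : ℂ, ip (-I * -a) x = -ip (-I * a) x := by intro a x; simp [ip]; ring
    ext x
    simp only [KG, Set.mem_ofPred_eq, Fin.forall_fin_succ, IsEmpty.forall_iff, and_true]
    change (ip (-I * e 0) x ≤ G 0 ∧ ip (-I * e 1) x ≤ G 1 ∧ ip (-I * e 2) x ≤ G 2
      ∧ ip (-I * e 3) x ≤ G 3) ↔ _
    rw [h02, h13, k, k]
    constructor
    · rintro ⟨h1, h2, h3, h4⟩
      exact ⟨⟨by linarith, h1⟩, by linarith, h2⟩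
    · rintro ⟨⟨h1, h2⟩, h3, h4⟩
      exact ⟨h2, h4, by linarith, by linarith⟩
  have hvol : ∀ G : Fin 4 → ℝ, (volume (KG e G)).toReal
      = max (G 0 - -(G 2)) 0 * max (G 1 - -(G 3)) 0 / det (e 0) (e 1) := by
    intro G
    rw [hset, H62T.H59.par_area (by rw [det_nI]; exact s1), det_nI]
  have d12 : det (e 1) (e 2) = det (e 0) (e 1) := by rw [h02, det_neg_right, ← det_swap]
  have d23 : det (e 2) (e 3) = det (e 0) (e 1) := by
    rw [h02, h13, det_neg_right, det_neg_left, neg_neg]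
  have d30 : det (e 3) (e 0) = det (e 0) (e 1) := by rw [h13, det_neg_left, ← det_swap]
  have d02 : det (e 0) (e 2) = 0 := by rw [h02, det_neg_right, det_self, neg_zero]
  have d13 : det (e 1) (e 3) = 0 := by rw [h13, det_neg_right, det_self, neg_zero]
  have d20 : det (e 2) (e 0) = 0 := by rw [h02, det_neg_left, det_self, neg_zero]
  have d31 : det (e 3) (e 1) = 0 := by rw [h13, det_neg_left, det_self, neg_zero]
  have l0 : ∀ G : Fin 4 → ℝ, Lam e G 0 = (G 1 + G 3) / det (e 0) (e 1) := by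
    intro G
    change (det (e 0) (e 1) * G 3 + det (e 3) (e 0) * G 1 - det (e 3) (e 1) * G 0)
        / (det (e 3) (e 0) * det (e 0) (e 1)) = _
    rw [d30, d31]; field_simp; ring
  have l1 : ∀ G : Fin 4 → ℝ, Lam e G 1 = (G 0 + G 2) / det (e 0) (e 1) := by
    intro G
    change (det (e 1) (e 2) * G 0 + det (e 0) (e 1) * G 2 - det (e 0) (e 2) * G 1)
        / (det (e 0) (e 1) * det (e 1) (e 2)) = _
    rw [d12, d02]; field_simp; ring
  have l2 : ∀ G : Fin 4 → ℝ, Lam e G 2 = (G 1 + G 3) / det (e 0) (e 1) := by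
    intro G
    change (det (e 2) (e 3) * G 1 + det (e 1) (e 2) * G 3 - det (e 1) (e 3) * G 2)
        / (det (e 1) (e 2) * det (e 2) (e 3)) = _
    rw [d12, d23, d13]; field_simp; ring
  have l3 : ∀ G : Fin 4 → ℝ, Lam e G 3 = (G 0 + G 2) / det (e 0) (e 1) := by
    intro G
    change (det (e 3) (e 0) * G 2 + det (e 2) (e 3) * G 0 - det (e 2) (e 0) * G 3)
        / (det (e 2) (e 3) * det (e 3) (e 0)) = _
    rw [d30, d23, d20]; field_simp; ring
  have hWG : ∀ G : Fin 4 → ℝ, WG e G = (G 0 + G 2) * (G 1 + G 3) / det (e 0) (e 1) := by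
    intro G
    unfold WG
    rw [Fin.sum_univ_four, l0, l1, l2, l3]
    field_simp
    ring
  have hTn : ∀ G : Fin 4 → ℝ, 0 ≤ G 0 + G 2 → 0 ≤ G 1 + G 3 →
      (volume (KG e G)).toReal = WG e G := by
    intro G h1 h2
    rw [hvol, hWG, max_eq_left (by linarith), max_eq_left (by linarith)]
    simp only [sub_neg_eq_add]
  refine ⟨fun G => ?_, fun G hG => ?_, fun G hG => ?_⟩
  · rw [hset]
    apply Bornology.IsBounded.measure_lt_top _ |>.ne
    apply H62T.H59.bounded_of (w0 := -I * e 0) (w1 := -I * e 1) (by rw [det_nI]; exact s1.ne')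
      (R := |G 0| + |G 1| + |G 2| + |G 3|)
    rintro x ⟨⟨h1, h2⟩, h3, h4⟩
    have a0 := le_abs_self (G 0)
    have a1 := le_abs_self (G 1)
    have a2 := le_abs_self (G 2)
    have a3 := le_abs_self (G 3)
    have b0 := abs_nonneg (G 0)
    have b1 := abs_nonneg (G 1)
    have b2 := abs_nonneg (G 2)
    have b3 := abs_nonneg (G 3)
    constructor
    · rw [abs_le]; constructor <;> linarith
    · rw [abs_le]; constructor <;> linarith
  · obtain ⟨c, hc⟩ := hG
    rw [hset] at hc
    obtain ⟨⟨h1, h2⟩, h3, h4⟩ := hc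
    exact (hTn G (by linarith) (by linarith)).ge
  · have g0 := hG 0
    have g1 := hG 1
    rw [l0] at g0
    rw [l1] at g1
    apply hTn
    · by_contra hcon
      push Not at hcon
      have := div_neg_of_neg_of_pos hcon s1
      linarith
    · by_contra hcon
      push Not at hcon
      have := div_neg_of_neg_of_pos hcon s1
      linarith

end Pool.Agent.H5O.H85
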