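import Pool.Agent.Helper85_OPEN.Fan

/-!
Squad OPEN, modules RVW, RLB: sign pattern of the directions, position of the vertices, removal of
a side.
-/

namespace Pool.Agent.H5O.H85

open MeasureTheory Complex Filter Topology Pool.Agent.H16Iso Pool.Agent.H1Gen
open Pool.Agent.H62T (ip Poly Vol dt)
open Pool.Agent.H62T.H85 (Ev nrm off CC Cfg Cap ipL ip_add ip_sub ip_rsmul)
open scoped Fin.CommRing Fin.NatCast

/-! ### bridge to the notions of squad TRI -/

section

variable {n : ℕ} {v : Fin (n + 3) → ℂ}

theorem n3 : 3 ≤ n + 3 := by omega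

theorem ccw_cc : CCW v ↔ CC v := Iff.rfl

theorem sl_pos (hv : CCW v) (j : Fin (n + 3)) : 0 < sl v j :=
  norm_pos_iff.2 (H62T.H85.Ev_ne n3 (ccw_cc.1 hv) j)

theorem edge_eq (hv : CCW v) (j : Fin (n + 3)) : v (j + 1) - v j = sl v j • ev v j := by
  have h : (sl v j : ℂ) ≠ 0 := by exact_mod_cast (sl_pos hv j).ne'
  unfold ev
  rw [Complex.real_smul]
  field_simp

theorem norm_ev (hv : CCW v) (j : Fin (n + 3)) : ‖ev v j‖ = 1 := by
  have h := sl_pos hv j
  unfold ev
  rw [norm_div, Complex.norm_real, Real.norm_of_nonneg h.le]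
  exact div_self h.ne'

theorem uv_eq (j : Fin (n + 3)) : uv v j = nrm v j := by
  unfold uv ev nrm Ev sl
  ring

theorem Hv_eq (j : Fin (n + 3)) : Hv v j = off v j := by
  unfold Hv off
  rw [uv_eq]

theorem det_Ev (hv : CCW v) (j : Fin (n + 3)) (z : ℂ) :
    dt (Ev v j) z = sl v j * det (ev v j) z := by
  change det (v (j + 1) - v j) z = _
  rw [edge_eq hv, det_smul_left]

theorem side_pos' (hv : CCW v) {j l : Fin (n + 3)} (h1 : l ≠ j) (h2 : l ≠ j + 1) :
    0 < det (ev v j) (v l - v j) := by
  have h3 := H62T.H85.side_pos n3 (ccw_cc.1 hv) j l h1 h2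
  rw [det_Ev hv] at h3
  exact (mul_pos_iff_of_pos_left (sl_pos hv j)).1 h3

theorem det_edge (hv : CCW v) (j : Fin (n + 3)) : det (ev v j) (v (j + 1) - v j) = 0 := by
  rw [edge_eq hv, det_smul_right, det_self, mul_zero]

theorem side_nonneg' (hv : CCW v) (j l : Fin (n + 3)) : 0 ≤ det (ev v j) (v l - v j) := by
  by_cases h1 : l = j
  · rw [h1, sub_self, det_zero_right]
  by_cases h2 : l = j + 1
  · rw [h2, det_edge hv]
  exact (side_pos' hv h1 h2).le

theorem det_succ_pos (hv : CCW v) (j : Fin (n + 3)) : 0 < det (ev v j) (ev v (j + 1)) := by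
  obtain ⟨h1, h2⟩ := H62T.H85.succ_ne (n := n + 3) n3 j
  obtain ⟨h3, h4⟩ := H62T.H85.succ_ne (n := n + 3) n3 (j + 1)
  have h5 := side_pos' hv (j := j) (l := j + 1 + 1) h2 h3
  have e : v (j + 1 + 1) - v j = (v (j + 1 + 1) - v (j + 1)) + (v (j + 1) - v j) := by ring
  rw [e, det_add_right, det_edge hv, add_zero, edge_eq hv (j + 1), det_smul_right] at h5
  exact (mul_pos_iff_of_pos_left (sl_pos hv _)).1 h5

theorem sn_pos (hv : CCW v) (j : Fin (n + 3)) : 0 < det (ev v (j - 1)) (ev v j) := by
  have := det_succ_pos hv (j - 1)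
  rwa [sub_add_cancel] at this

end

/-! ### the sign pattern -/

/-- sign pattern of the directions of the sides of a convex polygon -/
structure SP {n : ℕ} [NeZero n] (e : Fin n → ℂ) : Prop where
  unit : ∀ j, ‖e j‖ = 1
  pos : ∀ k, 0 < det (e (k - 1)) (e k)
  neg : ∀ i j, i ≠ j → i + 1 ≠ j → det (e j) (e i) ≤ 0 → det (e j) (e (i + 1)) < 0

theorem SP.pos' {n : ℕ} [NeZero n] {e : Fin n → ℂ} (h : SP e) (k : Fin n) :
    0 < det (e k) (e (k + 1)) := by
  have := h.pos (k + 1)
  rwa [add_sub_cancel_right] at this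

theorem sp_of_ccw {n : ℕ} {v : Fin (n + 3) → ℂ} (hv : CCW v) : SP (ev v) := by
  refine ⟨norm_ev hv, sn_pos hv, fun i j h1 h2 h3 => ?_⟩
  by_contra hcon
  push Not at hcon
  have id := plucker (ev v j) (ev v i) (ev v (i + 1)) (v j - v (i + 1))
  have p0 : 0 < det (ev v j) (v (i + 1) - v j) :=
    side_pos' hv h2 (fun h => h1 (add_right_cancel h))
  have p0' : det (ev v j) (v j - v (i + 1)) < 0 := by
    have : v j - v (i + 1) = -(v (i + 1) - v j) := by ring
    rw [this, det_neg_right]
    linarith
  have p1 := det_succ_pos hv i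
  have p2 := side_nonneg' hv (i + 1) j
  have p3 : 0 < det (ev v i) (v j - v (i + 1)) := by
    have h4 := side_pos' hv (j := i) (l := j) h1.symm h2.symm
    have e : v j - v (i + 1) = (v j - v i) - (v (i + 1) - v i) := by ring
    rw [e, det_sub_right, det_edge hv, sub_zero]
    exact h4
  have q1 : det (ev v j) (v j - v (i + 1)) * det (ev v i) (ev v (i + 1)) < 0 :=
    mul_neg_of_neg_of_pos p0' p1
  have q2 : det (ev v j) (ev v i) * det (ev v (i + 1)) (v j - v (i + 1)) ≤ 0 :=
    mul_nonpos_of_nonpos_of_nonneg h3 p2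
  have q3 : 0 ≤ det (ev v j) (ev v (i + 1)) * det (ev v i) (v j - v (i + 1)) :=
    mul_nonneg hcon p3.le
  linarith

/-- position of the vertices -/
theorem SP.wt_le {n : ℕ} [NeZero n] {e : Fin n → ℂ} (h : SP e) {G : Fin n → ℝ}
    (hG : ∀ j, 0 ≤ Lam e G j) (j k : Fin n) : ip (-I * e j) (wt e G k) ≤ G j := by
  have hn0 : 0 < n := Nat.pos_of_ne_zero (NeZero.ne n)
  set S : ℕ → ℝ := fun k => ip (-I * e j) (wt e G (j + (k : Fin n))) - G j with hS
  set d : ℕ → ℝ := fun k => det (e j) (e (j + (k : Fin n))) with hd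
  have hS0 : S 0 = 0 := by
    simp only [hS, Nat.cast_zero, add_zero, wt_right h.pos, sub_self]
  have hSn : S n = 0 := by
    simp only [hS, Fin.natCast_self, add_zero, wt_right h.pos, sub_self]
  have hstep : ∀ k, S (k + 1) = S k - Lam e G (j + (k : Fin n)) * d k := by
    intro k
    have e1 : j + ((k + 1 : ℕ) : Fin n) = j + (k : Fin n) + 1 := by
      rw [Nat.cast_succ, add_assoc]
    have h1 := wt_succ h.pos G (j + (k : Fin n))
    have h2 : wt e G (j + (k : Fin n) + 1)
        = wt e G (j + (k : Fin n)) + Lam e G (j + (k : Fin n)) • e (j + (k : Fin n)) := by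
      rw [← h1]; ring
    simp only [hS, hd, e1]
    rw [h2, ip_add, ip_rsmul, ip_nI (e j) (e _)]
    ring
  have hdneg : ∀ i, 1 ≤ i → i + 1 < n → d i ≤ 0 → d (i + 1) < 0 := by
    intro i hi1 hi2 hdi
    have e1 : j + ((i + 1 : ℕ) : Fin n) = j + (i : Fin n) + 1 := by
      rw [Nat.cast_succ, add_assoc]
    simp only [hd, e1]
    apply h.neg _ _ _ _ hdi
    · intro hc
      have : (i : Fin n) = 0 := by simpa using hc
      rw [Fin.natCast_eq_zero] at this
      exact absurd (Nat.le_of_dvd (by omega) this) (by omega)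
    · intro hc
      rw [← e1] at hc
      have : ((i + 1 : ℕ) : Fin n) = 0 := by simpa using hc
      rw [Fin.natCast_eq_zero] at this
      exact absurd (Nat.le_of_dvd (by omega) this) (by omega)
  have hd0 : d 0 = 0 := by simp only [hd, Nat.cast_zero, add_zero, det_self]
  have key : ∀ k, k ≤ n → S k ≤ 0 := by
    intro k hk
    by_cases hex : ∃ i, i < k ∧ d i < 0
    · obtain ⟨i0, hi0, hdi0⟩ := hex
      have hi1 : 1 ≤ i0 := by
        rcases Nat.eq_zero_or_pos i0 with h0 | h0
        · rw [h0, hd0] at hdi0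
          exact absurd hdi0 (lt_irrefl _)
        · exact h0
      have hall : ∀ i, i0 ≤ i → i < n → d i < 0 := by
        intro i hi
        induction i, hi using Nat.le_induction with
        | base => exact fun _ => hdi0
        | succ i hi ih =>
          intro hin
          exact hdneg i (by omega) hin (ih (by omega)).le
      have hmono : ∀ i, k ≤ i → i ≤ n → S k ≤ S i := by
        intro i hi
        induction i, hi using Nat.le_induction with
        | base => exact fun _ => le_rfl
        | succ i hi ih =>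
          intro hin
          rw [hstep]
          have g1 := ih (by omega)
          have g2 := mul_nonpos_of_nonneg_of_nonpos (hG (j + (i : Fin n)))
            (hall i (by omega) (by omega)).le
          linarith
      have := hmono n hk le_rfl
      rwa [hSn] at this
    · push Not at hex
      have : ∀ i, i ≤ k → S i ≤ 0 := by
        intro i
        induction i with
        | zero => exact fun _ => hS0.le
        | succ i ih =>
          intro hi
          rw [hstep]
          have g1 := ih (by omega)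
          have g2 := mul_nonneg (hG (j + (i : Fin n))) (hex i (by omega))
          linarith
      exact this k le_rfl
  have hk := key (k - j).val (k - j).isLt.le
  have e1 : j + (((k - j).val : ℕ) : Fin n) = k := by
    rw [Fin.cast_val_eq_self]; abel
  simp only [hS, e1] at hk
  linarith

theorem SP.wt_mem {n : ℕ} [NeZero n] {e : Fin n → ℂ} (h : SP e) {G : Fin n → ℝ}
    (hG : ∀ j, 0 ≤ Lam e G j) (k : Fin n) : wt e G k ∈ KG e G := fun j => h.wt_le hG j k

end Pool.Agent.H5O.H85
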