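import Pool.Agent.Helper85_OPEN.Rem

/-!
Squad OPEN, modules RVW, RLB: removal of the last side, rotation.
-/

namespace Pool.Agent.H5O.H85

open MeasureTheory Complex Filter Topology Pool.Agent.H16Iso Pool.Agent.H1Gen
open Pool.Agent.H62T (ip Poly Vol dt)
open Pool.Agent.H62T.H85 (Ev nrm off CC Cfg Cap ipL ip_add ip_sub ip_rsmul)
open scoped Fin.CommRing Fin.NatCast

/-! ### indices -/

theorem castSucc_succ {N : ℕ} [NeZero N] (i : Fin (N + 1)) (h : i ≠ Fin.last N) :
    (i + 1).castSucc = i.castSucc + 1 := by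
  have hlt : i < Fin.last N := Fin.lt_last_iff_ne_last.2 h
  apply Fin.ext
  rw [Fin.val_castSucc, Fin.val_add_one_of_lt hlt, Fin.val_add_one_of_lt, Fin.val_castSucc]
  rw [Fin.lt_def, Fin.val_castSucc, Fin.val_last]
  have := i.isLt
  omega

theorem castSucc_pred {N : ℕ} [NeZero N] (i : Fin (N + 1)) (h : i ≠ 0) :
    (i - 1).castSucc = i.castSucc - 1 := by
  have h1 : i - 1 ≠ Fin.last N := by
    intro hc
    apply h
    have : i = i - 1 + 1 := (sub_add_cancel i 1).symm
    rw [this, hc, Fin.last_add_one]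
  have h2 := castSucc_succ (i - 1) h1
  rw [sub_add_cancel] at h2
  rw [h2, add_sub_cancel_right]

theorem zero_pred {N : ℕ} : (0 : Fin (N + 1)) - 1 = Fin.last N := by
  rw [sub_eq_iff_eq_add, Fin.last_add_one]

/-! ### formal quantities after the removal of the last side -/

section

variable {m : ℕ} {e : Fin (m + 4) → ℂ} {G : Fin (m + 4) → ℝ}

/-- the last index -/
abbrev LL4 (m : ℕ) : Fin (m + 4) := Fin.last (m + 3)

/-- the index before the last one -/
abbrev LP (m : ℕ) : Fin (m + 4) := (Fin.last (m + 2)).castSucc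

theorem LP_eq (m : ℕ) : LL4 m - 1 = LP m := by
  rw [sub_eq_iff_eq_add]
  apply Fin.ext
  rw [Fin.val_add_one_of_lt]
  · simp
  · rw [Fin.lt_def]; simp

theorem lam_mid (i : Fin (m + 3)) (h0 : i ≠ 0) (h1 : i ≠ Fin.last (m + 2)) :
    Lam (fun i : Fin (m + 3) => e i.castSucc) (fun i => G i.castSucc) i = Lam e G i.castSucc := by
  unfold Lam
  dsimp only
  rw [castSucc_succ i h1, castSucc_pred i h0]

theorem lam_zero (hs : ∀ k, 0 < det (e (k - 1)) (e k)) (hD : 0 < det (e (LP m)) (e 0)) :
    Lam (fun i : Fin (m + 3) => e i.castSucc) (fun i => G i.castSucc) 0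
      = Lam e G 0 + det (e (LP m)) (e (LL4 m)) / det (e (LP m)) (e 0) * Lam e G (LL4 m) := by
  have h1 : ((0 : Fin (m + 3)) - 1).castSucc = LP m := by rw [zero_pred]
  have h2 : ((0 : Fin (m + 3)) + 1).castSucc = (0 : Fin (m + 4)) + 1 := by
    rw [castSucc_succ 0 (by intro h; have := congrArg Fin.val h; simp at this)]
    rfl
  have h3 : (0 : Fin (m + 4)) - 1 = LL4 m := zero_pred
  have h4 : LL4 m + 1 = 0 := Fin.last_add_one _
  have h5 := LP_eq m
  have s0 := (hs 0).ne'
  have s1 := (hs (0 + 1)).ne'
  have sL := (hs (LL4 m)).ne'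
  rw [h3] at s0
  rw [add_sub_cancel_right] at s1
  rw [h5] at sL
  have hD' := hD.ne'
  unfold Lam
  simp only [h1, h2, h3, h4, h5, Fin.castSucc_zero]
  have hp := plucker (e (LP m)) (e (LL4 m)) (e 0) (e (0 + 1))
  field_simp
  linear_combination (-G 0) * hp

theorem lam_last (hs : ∀ k, 0 < det (e (k - 1)) (e k)) (hD : 0 < det (e (LP m)) (e 0)) :
    Lam (fun i : Fin (m + 3) => e i.castSucc) (fun i => G i.castSucc) (Fin.last (m + 2))
      = Lam e G (LP m) + det (e (LL4 m)) (e 0) / det (e (LP m)) (e 0) * Lam e G (LL4 m) := by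
  have h1 : ((Fin.last (m + 2) : Fin (m + 3)) + 1).castSucc = (0 : Fin (m + 4)) := by
    rw [Fin.last_add_one]; rfl
  have hne : (Fin.last (m + 2) : Fin (m + 3)) ≠ 0 := by
    intro h; have := congrArg Fin.val h; simp at this
  have h2 := castSucc_pred (Fin.last (m + 2) : Fin (m + 3)) hne
  have h3 : LP m + 1 = LL4 m := by rw [← LP_eq]; exact sub_add_cancel _ _
  have h4 : LL4 m + 1 = 0 := Fin.last_add_one _
  have h5 := LP_eq m
  have s0 := (hs 0).ne'
  have sL := (hs (LL4 m)).ne'
  have sP := (hs (LP m)).ne'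
  rw [show (0 : Fin (m + 4)) - 1 = LL4 m from zero_pred] at s0
  rw [h5] at sL
  have hD' := hD.ne'
  unfold Lam
  simp only [h1, h2, h3, h4, h5]
  have hp := plucker (e (LP m - 1)) (e (LP m)) (e (LL4 m)) (e 0)
  field_simp
  linear_combination (-G (LP m)) * hp

theorem wG_last (hs : ∀ k, 0 < det (e (k - 1)) (e k)) (hD : 0 < det (e (LP m)) (e 0)) :
    WG (fun i : Fin (m + 3) => e i.castSucc) (fun i => G i.castSucc)
      = WG e G + det (e (LP m)) (e (LL4 m)) * det (e (LL4 m)) (e 0) / (2 * det (e (LP m)) (e 0))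
        * Lam e G (LL4 m) ^ 2 := by
  have hne : (Fin.last (m + 2) : Fin (m + 3)) ≠ 0 := by
    intro h; have := congrArg Fin.val h; simp at this
  have key : ∀ i : Fin (m + 3), Lam (fun i : Fin (m + 3) => e i.castSucc) (fun i => G i.castSucc) i
      = Lam e G i.castSucc
        + (if i = 0 then det (e (LP m)) (e (LL4 m)) / det (e (LP m)) (e 0) * Lam e G (LL4 m) else 0)
        + (if i = Fin.last (m + 2) then
            det (e (LL4 m)) (e 0) / det (e (LP m)) (e 0) * Lam e G (LL4 m) else 0) := by
    intro i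
    by_cases h0 : i = 0
    · subst h0
      rw [lam_zero hs hD, if_pos rfl, if_neg hne.symm, add_zero]
      rfl
    · by_cases h1 : i = Fin.last (m + 2)
      · subst h1
        rw [lam_last hs hD, if_neg h0, if_pos rfl, add_zero]
      · rw [lam_mid i h0 h1, if_neg h0, if_neg h1, add_zero, add_zero]
  unfold WG
  rw [Fin.sum_univ_castSucc (n := m + 3)]
  simp only [key, mul_add, Finset.sum_add_distrib, mul_ite, mul_zero, Finset.sum_ite_eq',
    Finset.mem_univ, if_true, Fin.castSucc_zero]
  have h3 : (0 : Fin (m + 4)) - 1 = LL4 m := zero_pred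
  have h4 : LL4 m + 1 = 0 := Fin.last_add_one _
  have s0 := (hs 0).ne'
  have sL := (hs (LL4 m)).ne'
  rw [h3] at s0
  rw [LP_eq] at sL
  have hD' := hD.ne'
  have hL : Lam e G (LL4 m) = (det (e (LL4 m)) (e 0) * G (LP m) + det (e (LP m)) (e (LL4 m)) * G 0
      - det (e (LP m)) (e 0) * G (LL4 m)) / (det (e (LP m)) (e (LL4 m)) * det (e (LL4 m)) (e 0)) := by
    unfold Lam
    rw [h4, LP_eq]
  have hG : G (LL4 m) = (det (e (LL4 m)) (e 0) * G (LP m) + det (e (LP m)) (e (LL4 m)) * G 0
      - det (e (LP m)) (e (LL4 m)) * det (e (LL4 m)) (e 0) * Lam e G (LL4 m))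
        / det (e (LP m)) (e 0) := by
    rw [hL]
    field_simp
    ring
  have hlast : (Fin.last (m + 3)) = LL4 m := rfl
  rw [hlast]
  conv_rhs => rw [hG]
  field_simp
  ring

theorem KG_last : KG e G = KG (fun i : Fin (m + 3) => e i.castSucc) (fun i => G i.castSucc)
    ∩ {x | ip (-I * e (LL4 m)) x ≤ G (LL4 m)} := by
  ext x
  simp only [KG, Set.mem_ofPred_eq, Set.mem_inter_iff, Fin.forall_fin_succ' (n := m + 3)]

end

/-! ### removal of the last side of a convex polygon -/

theorem ev_eq_of {n : ℕ} {v : Fin (n + 3) → ℂ} {j : Fin (n + 3)} {c : ℝ} {u : ℂ} (hc : 0 < c)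
    (hu : ‖u‖ = 1) (h : v (j + 1) - v j = c • u) : ev v j = u := by
  have h1 : sl v j = c := by
    unfold sl
    rw [h, norm_smul, hu, mul_one, Real.norm_of_nonneg hc.le]
  have h2 : (c : ℂ) ≠ 0 := by exact_mod_cast hc.ne'
  unfold ev
  rw [h1, h, Complex.real_smul]
  field_simp

theorem removal {m : ℕ} {v : Fin (m + 4) → ℂ} (hv : CCW v)
    (hD : 0 < det (ev (n := m + 1) v (LP m)) (ev (n := m + 1) v 0)) :
    ∃ v' : Fin (m + 3) → ℂ, CCW v' ∧ ev v' = fun i => ev (n := m + 1) v i.castSucc := by
  have hP1 : LP m + 1 = LL4 m := by rw [← LP_eq]; exact sub_add_cancel _ _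
  have h4 : LL4 m + 1 = 0 := Fin.last_add_one _
  set e := ev (n := m + 1) v with he
  set q := v 0 with hq
  set p := v (LL4 m) with hp
  have hsp := sp_of_ccw (n := m + 1) hv
  have sL : 0 < det (e (LP m)) (e (LL4 m)) := by
    have := hsp.pos (LL4 m)
    rwa [LP_eq] at this
  have s0 : 0 < det (e (LL4 m)) (e 0) := by
    have := hsp.pos 0
    rwa [show (0 : Fin (m + 4)) - 1 = LL4 m from zero_pred] at this
  have hslL : 0 < sl (n := m + 1) v (LL4 m) := sl_pos (n := m + 1) hv _
  have hqp : q - p = sl (n := m + 1) v (LL4 m) • e (LL4 m) := by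
    have := edge_eq (n := m + 1) hv (LL4 m)
    rw [h4] at this
    exact this
  set D := det (e (LP m)) (e 0) with hDd
  set t := sl (n := m + 1) v (LL4 m) * det (e (LP m)) (e (LL4 m)) / D with ht
  set b := sl (n := m + 1) v (LL4 m) * det (e (LL4 m)) (e 0) / D with hb
  have ht0 : 0 < t := by positivity
  have hb0 : 0 < b := by positivity
  set w := q - t • e 0 with hw
  have hwp : w = p + b • e (LP m) := by
    have hc := cramer hD.ne' (e (LL4 m))
    rw [hw, sub_eq_iff_eq_add, add_assoc, ← sub_eq_iff_eq_add', hqp]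
    conv_lhs => rw [hc]
    rw [smul_add, smul_smul, smul_smul, ht, hb]
    congr 2
    · ring
    · ring
  have hqw : q - w = t • e 0 := by rw [hw]; abel
  have hpw : p - w = -(b • e (LP m)) := by rw [hwp]; abel
  have hD0 : 0 < det (q - w) (p - w) := by
    rw [hqw, hpw, det_neg_right, det_smul_left, det_smul_right, det_swap (e 0)]
    have : 0 < t * b * D := by positivity
    linarith
  set v' : Fin (m + 3) → ℂ := fun i => if i = 0 then w else v i.castSucc with hv'
  have hv'0 : v' 0 = w := if_pos rfl
  have hv'i : ∀ i, i ≠ 0 → v' i = v i.castSucc := fun i hi => if_neg hi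
  have hcs0 : ∀ i : Fin (m + 3), i ≠ 0 → i.castSucc ≠ (0 : Fin (m + 4)) := by
    intro i hi h
    apply hi
    exact Fin.castSucc_injective _ (by rw [h]; rfl)
  have hcsL : ∀ i : Fin (m + 3), i.castSucc ≠ LL4 m := fun i => (Fin.castSucc_lt_last i).ne
  have hccw : CCW v' := by
    intro i j k hij hjk
    have hj0 : j ≠ 0 := Fin.ne_zero_of_lt hij
    have hk0 : k ≠ 0 := Fin.ne_zero_of_lt hjk
    rw [hv'i j hj0, hv'i k hk0]
    by_cases hi0 : i = 0
    · subst hi0
      rw [hv'0]
      set x := v j.castSucc with hx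
      set y := v k.castSucc with hy
      -- the three coordinates
      have hm : 0 ≤ det (q - w) (x - w) := by
        rw [hqw, det_smul_left]
        apply mul_nonneg ht0.le
        have h5 := side_nonneg' (n := m + 1) hv 0 j.castSucc
        have h6 : x - w = (x - q) + t • e 0 := by rw [hw]; abel
        rw [h6, det_add_right, det_smul_right, det_self, mul_zero, add_zero]
        exact h5
      have hl : 0 ≤ det (x - w) (p - w) := by
        rw [hpw, det_neg_right, det_smul_right, ← mul_neg, ← det_swap]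
        apply mul_nonneg hb0.le
        have h5 := side_nonneg' (n := m + 1) hv (LP m) j.castSucc
        have h7 := det_edge (n := m + 1) hv (LP m)
        rw [hP1] at h7
        have h6 : x - w = (x - v (LP m)) - (p - v (LP m)) - b • e (LP m) := by rw [hwp]; abel
        rw [h6, det_sub_right, det_sub_right, det_smul_right, det_self, mul_zero, sub_zero]
        change 0 ≤ det (e (LP m)) (x - v (LP m)) - det (e (LP m)) (p - v (LP m))
        rw [show det (e (LP m)) (p - v (LP m)) = 0 from h7, sub_zero]
        exact h5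
      have hlm : 0 < det (x - w) (p - w) + det (q - w) (x - w) - det (q - w) (p - w) := by
        have h5 := side_pos' (n := m + 1) hv (j := LL4 m) (l := j.castSucc) (hcsL j)
          (by rw [h4]; exact hcs0 j hj0)
        have h6 : det (x - w) (p - w) + det (q - w) (x - w) - det (q - w) (p - w)
            = det (q - p) (x - p) := by
          simp only [det, sub_re, sub_im]; ring
        rw [h6, hqp, det_smul_left]
        exact mul_pos hslL h5
      have hP1' : 0 < det (x - q) (y - q) := by
        have : (0 : Fin (m + 4)) < j.castSucc := Fin.pos_iff_ne_zero.2 (hcs0 j hj0)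
        exact hv 0 j.castSucc k.castSucc this hjk
      have hP2' : 0 < det (x - p) (y - p) := by
        have h5 := hv j.castSucc k.castSucc (LL4 m) hjk (Fin.castSucc_lt_last k)
        have h6 : det (x - p) (y - p) = det (y - x) (p - x) := by
          simp only [det, sub_re, sub_im]; ring
        rw [h6]
        exact h5
      have hid : det (x - w) (p - w) * det (x - q) (y - q)
          + det (q - w) (x - w) * det (x - p) (y - p)
          = (det (x - w) (y - w))
            * (det (x - w) (p - w) + det (q - w) (x - w) - det (q - w) (p - w)) := by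
        simp only [det, sub_re, sub_im]; ring
      have hpos : 0 < det (x - w) (p - w) * det (x - q) (y - q)
          + det (q - w) (x - w) * det (x - p) (y - p) := by
        have h8 : 0 < det (x - w) (p - w) + det (q - w) (x - w) := by linarith
        rcases hl.eq_or_lt with h9 | h9
        · have h10 : 0 < det (q - w) (x - w) := by linarith
          have := mul_pos h10 hP2'
          rw [← h9, zero_mul, zero_add]
          exact this
        · have g1 := mul_pos h9 hP1'
          have g2 := mul_nonneg hm hP2'.le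
          linarith
      rw [hid] at hpos
      exact (mul_pos_iff_of_pos_right hlm).1 hpos
    · rw [hv'i i hi0]
      exact hv _ _ _ hij hjk
  refine ⟨v', hccw, ?_⟩
  funext i
  have hne : (Fin.last (m + 2) : Fin (m + 3)) ≠ 0 := by
    intro h; have := congrArg Fin.val h; simp at this
  by_cases hi0 : i = 0
  · subst hi0
    have hne1 : (0 : Fin (m + 3)) + 1 ≠ 0 := by
      rw [zero_add]
      intro h; have := congrArg Fin.val h; simp at this
    apply ev_eq_of (c := sl (n := m + 1) v 0 + t)
      (add_pos (sl_pos (n := m + 1) hv _) ht0) (norm_ev (n := m + 1) hv _)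
    rw [hv'i _ hne1, hv'0, castSucc_succ 0 hne.symm]
    have h5 := edge_eq (n := m + 1) hv 0
    rw [add_smul]
    change v (0 + 1) - w = sl (n := m + 1) v 0 • e 0 + t • e 0
    rw [he, ← h5, ← he, hw]
    abel
  · by_cases hiL : i = Fin.last (m + 2)
    · subst hiL
      apply ev_eq_of (c := sl (n := m + 1) v (LP m) + b)
        (add_pos (sl_pos (n := m + 1) hv _) hb0) (norm_ev (n := m + 1) hv _)
      rw [Fin.last_add_one, hv'0, hv'i _ hne, add_smul]
      have h5 := edge_eq (n := m + 1) hv (LP m)
      rw [hP1] at h5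
      change w - v (LP m) = sl (n := m + 1) v (LP m) • e (LP m) + b • e (LP m)
      rw [he, ← h5, ← he, hwp]
      abel
    · have hi1 : i + 1 ≠ 0 := by
        intro h
        apply hiL
        rw [← Fin.last_add_one (m + 2)] at h
        exact add_right_cancel h
      apply ev_eq_of (c := sl (n := m + 1) v i.castSucc)
        (sl_pos (n := m + 1) hv _) (norm_ev (n := m + 1) hv _)
      rw [hv'i _ hi1, hv'i _ hi0, castSucc_succ i hiL]
      exact edge_eq (n := m + 1) hv i.castSucc

/-! ### rotation of a convex polygon -/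

theorem ccw_rot1 {N : ℕ} {v : Fin (N + 1) → ℂ} (hv : CCW v) : CCW fun i => v (i + 1) := by
  intro i j k hij hjk
  have hval : ∀ a : Fin (N + 1), a < k → (a + 1 : Fin (N + 1)).val = a.val + 1 := by
    intro a ha
    exact Fin.val_add_one_of_lt (lt_of_lt_of_le ha (Fin.le_last k))
  have hi := hval i (hij.trans hjk)
  have hj := hval j hjk
  by_cases hk : k = Fin.last N
  · subst hk
    simp only [Fin.last_add_one]
    have h1 : (0 : Fin (N + 1)) < i + 1 := by rw [Fin.lt_def, hi]; simp
    have h2 : i + 1 < j + 1 := by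
      rw [Fin.lt_def, hi, hj]
      have := Fin.lt_def.1 hij
      omega
    have h3 := hv 0 (i + 1) (j + 1) h1 h2
    have : det (v (j + 1) - v (i + 1)) (v 0 - v (i + 1))
        = det (v (i + 1) - v 0) (v (j + 1) - v 0) := by
      simp only [det, sub_re, sub_im]; ring
    rw [this]
    exact h3
  · have hk' := Fin.val_add_one_of_lt (Fin.lt_last_iff_ne_last.2 hk)
    apply hv
    · rw [Fin.lt_def, hi, hj]
      have := Fin.lt_def.1 hij
      omega
    · rw [Fin.lt_def, hj, hk']
      have := Fin.lt_def.1 hjk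
      omega

theorem ccw_rot {N : ℕ} {v : Fin (N + 1) → ℂ} (hv : CCW v) (c : Fin (N + 1)) :
    CCW fun i => v (i + c) := by
  have key : ∀ k : ℕ, CCW fun i => v (i + (k : Fin (N + 1))) := by
    intro k
    induction k with
    | zero => simpa using hv
    | succ k ih =>
      have := ccw_rot1 ih
      have e : (fun i => v (i + ((k + 1 : ℕ) : Fin (N + 1))))
          = fun i => v (i + 1 + (k : Fin (N + 1))) := by
        funext i
        congr 1
        rw [Nat.cast_succ]
        abel
      rw [e]
      exact this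
  have := key c.val
  rwa [Fin.cast_val_eq_self] at this

theorem ev_rot {n : ℕ} (v : Fin (n + 3) → ℂ) (c j : Fin (n + 3)) :
    ev (fun i => v (i + c)) j = ev v (j + c) := by
  have e1 : j + 1 + c = j + c + 1 := add_right_comm _ _ _
  unfold ev sl
  simp only [e1]

end Pool.Agent.H5O.H85
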